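import Mathlib

/-!
# Twin Costas permutations: no classical algebraic Costas permutation generates a pair of twins

All permutations are functions `f : ℕ → ℕ` read on `{1, ..., n}`.
-/

namespace Pool.Agent.Results.MP_b23570_co.NoAlgebraicTwins

/-- `f`, read on `{1, ..., n}`, is a Costas permutation: it is a bijection of `{1, ..., n}` and the
displacement vectors `(j - i, f j - f i)`, `1 ≤ i < j ≤ n`, are pairwise distinct. -/
def IsCostas (n : ℕ) (f : ℕ → ℕ) : Prop :=
  Set.BijOn f (Set.Icc 1 n) (Set.Icc 1 n) ∧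
    ∀ i j k l : ℕ, 1 ≤ i → i < j → j ≤ n → 1 ≤ k → k < l → l ≤ n →
      (j : ℤ) - i = (l : ℤ) - k → (f j : ℤ) - f i = (f l : ℤ) - f k → i = k ∧ j = l

/-- The extension of `f` by two corner dots on the main diagonal (`g₁` of the problem). -/
def ext1 (n : ℕ) (f : ℕ → ℕ) : ℕ → ℕ :=
  fun i => if i = 1 then 1 else if i = n + 2 then n + 2 else f (i - 1) + 1

/-- The extension of `f` by two corner dots on the anti-diagonal (`g₂` of the problem). -/
def ext2 (n : ℕ) (f : ℕ → ℕ) : ℕ → ℕ :=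
  fun i => if i = 1 then n + 2 else if i = n + 2 then 1 else f (i - 1) + 1

/-- `f` is a Costas permutation of `{1, ..., n}` that generates a pair of twins. -/
def GeneratesTwins (n : ℕ) (f : ℕ → ℕ) : Prop :=
  IsCostas n f ∧ IsCostas (n + 2) (ext1 n f) ∧ IsCostas (n + 2) (ext2 n f)

/-- The permutations given by the classical algebraic constructions, up to the symmetries of the
square. -/
inductive Algebraic : ℕ → (ℕ → ℕ) → Prop
  /-- Welch: order `p - 1`, `f i = g ^ (i + c) mod p` for a primitive root `g`. -/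
  | welch (p : ℕ) (hp : p.Prime) (g : (ZMod p)ˣ) (hg : ∀ x, x ∈ Subgroup.zpowers g) (c : ℕ)
      (f : ℕ → ℕ)
      (hf : ∀ i ∈ Set.Icc 1 (p - 1), f i ∈ Set.Icc 1 (p - 1) ∧
        (f i : ZMod p) = (g : ZMod p) ^ (i + c)) : Algebraic (p - 1) f
  /-- Welch with the corner dot removed: order `p - 2`, `f i + 1 = g ^ i mod p`. -/
  | welchCorner (p : ℕ) (hp : p.Prime) (g : (ZMod p)ˣ) (hg : ∀ x, x ∈ Subgroup.zpowers g)
      (f : ℕ → ℕ)
      (hf : ∀ i ∈ Set.Icc 1 (p - 2), f i ∈ Set.Icc 1 (p - 2) ∧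
        (f i : ZMod p) + 1 = (g : ZMod p) ^ i) : Algebraic (p - 2) f
  /-- Lempel-Golomb: order `q - 2`, `a ^ i + b ^ (f i) = 1` for primitive elements `a`, `b` of a
  field with `q` elements. -/
  | golomb (F : Type) [Field F] [Fintype F] (a b : Fˣ) (ha : ∀ x, x ∈ Subgroup.zpowers a)
      (hb : ∀ x, x ∈ Subgroup.zpowers b) (f : ℕ → ℕ)
      (hf : ∀ i ∈ Set.Icc 1 (Fintype.card F - 2), f i ∈ Set.Icc 1 (Fintype.card F - 2) ∧
        (a : F) ^ i + (b : F) ^ (f i) = 1) : Algebraic (Fintype.card F - 2) f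
  /-- Lempel-Golomb in characteristic two with `a + b = 1` and the corner dot removed: order
  `q - 3`. -/
  | golombCorner (F : Type) [Field F] [Fintype F] (hc : CharP F 2) (a b : Fˣ)
      (ha : ∀ x, x ∈ Subgroup.zpowers a) (hb : ∀ x, x ∈ Subgroup.zpowers b)
      (hab : (a : F) + b = 1) (f : ℕ → ℕ)
      (hf : ∀ i ∈ Set.Icc 1 (Fintype.card F - 3), f i ∈ Set.Icc 1 (Fintype.card F - 3) ∧
        (a : F) ^ (i + 1) + (b : F) ^ (f i + 1) = 1) : Algebraic (Fintype.card F - 3) f
  /-- Lempel-Golomb in characteristic two with `a + b = 1` and the two dots `(1, 1)`, `(2, 2)`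
  removed: order `q - 4`. -/
  | golombTwoCorners (F : Type) [Field F] [Fintype F] (hc : CharP F 2) (a b : Fˣ)
      (ha : ∀ x, x ∈ Subgroup.zpowers a) (hb : ∀ x, x ∈ Subgroup.zpowers b)
      (hab : (a : F) + b = 1) (f : ℕ → ℕ)
      (hf : ∀ i ∈ Set.Icc 1 (Fintype.card F - 4), f i ∈ Set.Icc 1 (Fintype.card F - 4) ∧
        (a : F) ^ (i + 2) + (b : F) ^ (f i + 2) = 1) : Algebraic (Fintype.card F - 4) f
  /-- The reflection `i ↦ f (n + 1 - i)`. -/
  | reflect (n : ℕ) (f : ℕ → ℕ) (hf : Algebraic n f) : Algebraic n (fun i => f (n + 1 - i))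
  /-- The inverse permutation. -/
  | inverse (n : ℕ) (f h : ℕ → ℕ) (hf : Algebraic n f)
      (hh : ∀ i ∈ Set.Icc 1 n, h i ∈ Set.Icc 1 n ∧ f (h i) = i) : Algebraic n h

/-! ## The obstruction: additive triples -/

/-- An additive triple: `a + b ≡ c` and `f a + f b ≡ f c` modulo `n + 1`, with `f 0 = 0`. -/
def HasTriple (n : ℕ) (f : ℕ → ℕ) : Prop :=
  ∃ a b c d : ℕ, 1 ≤ a ∧ a ≤ n ∧ 1 ≤ b ∧ b ≤ n ∧ (a + b = c ∨ a + b = c + (n + 1)) ∧
    (f a + f b = d ∨ f a + f b = d + (n + 1)) ∧
    ((c = 0 ∧ d = 0) ∨ (1 ≤ c ∧ c ≤ n ∧ f c = d))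

theorem ext1_one (n : ℕ) (f : ℕ → ℕ) : ext1 n f 1 = 1 := by simp [ext1]

theorem ext1_last (n : ℕ) (f : ℕ → ℕ) : ext1 n f (n + 2) = n + 2 := by simp [ext1]

theorem ext1_mid (n : ℕ) (f : ℕ → ℕ) (i : ℕ) (h1 : 1 ≤ i) (h2 : i ≤ n) :
    ext1 n f (i + 1) = f i + 1 := by
  have h3 : i + 1 ≠ 1 := by omega
  have h4 : i + 1 ≠ n + 2 := by omega
  simp only [ext1, h3, h4, if_false, Nat.add_sub_cancel]

theorem ext2_one (n : ℕ) (f : ℕ → ℕ) : ext2 n f 1 = n + 2 := by simp [ext2]

theorem ext2_last (n : ℕ) (f : ℕ → ℕ) : ext2 n f (n + 2) = 1 := by simp [ext2]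

theorem ext2_mid (n : ℕ) (f : ℕ → ℕ) (i : ℕ) (h1 : 1 ≤ i) (h2 : i ≤ n) :
    ext2 n f (i + 1) = f i + 1 := by
  have h3 : i + 1 ≠ 1 := by omega
  have h4 : i + 1 ≠ n + 2 := by omega
  simp only [ext2, h3, h4, if_false, Nat.add_sub_cancel]

theorem not_twins_of_triple (n : ℕ) (f : ℕ → ℕ) (h : HasTriple n f) : ¬ GeneratesTwins n f := by
  rintro ⟨⟨hbij, -⟩, ⟨-, h1⟩, ⟨-, h2⟩⟩
  obtain ⟨a, b, c, d, ha1, ha2, hb1, hb2, hc, hd, hcd⟩ := h
  rcases hcd with ⟨hc0, hd0⟩ | ⟨hc1, hc2, hfc⟩
  · subst hc0; subst hd0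
    have hab : a + b = n + 1 := by omega
    have hfa : 1 ≤ f a := (hbij.mapsTo ⟨ha1, ha2⟩).1
    have hfab : f a + f b = n + 1 := by omega
    have := h1 1 (a + 1) (b + 1) (n + 2) (by omega) (by omega) (by omega) (by omega) (by omega)
      (by omega) (by push_cast; omega)
      (by rw [ext1_one, ext1_last, ext1_mid n f a ha1 ha2, ext1_mid n f b hb1 hb2]; omega)
    omega
  · rcases hc with hc | hc
    · rcases hd with hd | hd
      · have := h1 1 (a + 1) (b + 1) (c + 1) (by omega) (by omega) (by omega) (by omega)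
          (by omega) (by omega) (by push_cast; omega)
          (by rw [ext1_one, ext1_mid n f a ha1 ha2, ext1_mid n f b hb1 hb2,
                ext1_mid n f c hc1 hc2]; omega)
        omega
      · have := h2 1 (a + 1) (b + 1) (c + 1) (by omega) (by omega) (by omega) (by omega)
          (by omega) (by omega) (by push_cast; omega)
          (by rw [ext2_one, ext2_mid n f a ha1 ha2, ext2_mid n f b hb1 hb2,
                ext2_mid n f c hc1 hc2]; omega)
        omega
    · rcases hd with hd | hd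
      · have := h2 (a + 1) (n + 2) (c + 1) (b + 1) (by omega) (by omega) (by omega) (by omega)
          (by omega) (by omega) (by push_cast; omega)
          (by rw [ext2_last, ext2_mid n f a ha1 ha2, ext2_mid n f b hb1 hb2,
                ext2_mid n f c hc1 hc2]; omega)
        omega
      · have := h1 (a + 1) (n + 2) (c + 1) (b + 1) (by omega) (by omega) (by omega) (by omega)
          (by omega) (by omega) (by push_cast; omega)
          (by rw [ext1_last, ext1_mid n f a ha1 ha2, ext1_mid n f b hb1 hb2,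
                ext1_mid n f c hc1 hc2]; omega)
        omega

/-! ## Tools -/

theorem mod_cases {m s d : ℕ} (hs : s < 2 * m) (hd : d < m) (h : s ≡ d [MOD m]) :
    s = d ∨ s = d + m := by
  unfold Nat.ModEq at h
  rw [Nat.mod_eq_of_lt hd] at h
  by_cases hsm : s < m
  · left; rwa [Nat.mod_eq_of_lt hsm] at h
  · right
    rw [Nat.mod_eq_sub_mod (by omega), Nat.mod_eq_of_lt (by omega)] at h
    omega

theorem pow_inj {G : Type*} [Group G] [Fintype G] {a : G} (ha : ∀ x, x ∈ Subgroup.zpowers a)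
    {i j : ℕ} (h : a ^ i = a ^ j) : i ≡ j [MOD Fintype.card G] := by
  have := (pow_eq_pow_iff_modEq (x := a)).1 h
  rwa [orderOf_eq_card_of_forall_mem_zpowers ha, Nat.card_eq_fintype_card] at this

theorem exists_log {G : Type*} [Group G] [Fintype G] {a : G} (ha : ∀ x, x ∈ Subgroup.zpowers a)
    {x : G} (hx : x ≠ 1) : ∃ k : ℕ, 1 ≤ k ∧ k < Fintype.card G ∧ a ^ k = x := by
  have h1 := ha x
  rw [← mem_powers_iff_mem_zpowers] at h1
  obtain ⟨k, hk⟩ := h1
  simp only at hk
  have hcard : orderOf a = Fintype.card G := by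
    rw [orderOf_eq_card_of_forall_mem_zpowers ha, Nat.card_eq_fintype_card]
  refine ⟨k % Fintype.card G, ?_, Nat.mod_lt _ Fintype.card_pos, ?_⟩
  · by_contra h0
    have h0' : k % Fintype.card G = 0 := by omega
    apply hx
    rw [← hk, ← pow_mod_orderOf, hcard, h0', pow_zero]
  · rw [← hcard, pow_mod_orderOf, hk]

/-- What is carried through the induction. -/
def Good (n : ℕ) (f : ℕ → ℕ) : Prop :=
  (∀ i, 1 ≤ i → i ≤ n → 1 ≤ f i ∧ f i ≤ n) ∧
    (∀ i j, 1 ≤ i → i ≤ n → 1 ≤ j → j ≤ n → f i = f j → i = j) ∧ (1 ≤ n → HasTriple n f)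

theorem good_reflect (n : ℕ) (f : ℕ → ℕ) (h : Good n f) : Good n (fun i => f (n + 1 - i)) := by
  obtain ⟨h1, h2, h3⟩ := h
  refine ⟨fun i hi1 hi2 => h1 _ (by omega) (by omega), fun i j hi1 hi2 hj1 hj2 hij => ?_,
    fun hn => ?_⟩
  · have := h2 _ _ (by omega) (by omega) (by omega) (by omega) hij
    omega
  · obtain ⟨a, b, c, d, ha1, ha2, hb1, hb2, hc, hd, hcd⟩ := h3 hn
    have e1 : n + 1 - (n + 1 - a) = a := by omega
    have e2 : n + 1 - (n + 1 - b) = b := by omega
    rcases hcd with ⟨hc0, hd0⟩ | ⟨hc1, hc2, hfc⟩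
    · refine ⟨n + 1 - a, n + 1 - b, 0, 0, by omega, by omega, by omega, by omega, by omega, ?_,
        Or.inl ⟨rfl, rfl⟩⟩
      simp only [e1, e2]
      omega
    · have e3 : n + 1 - (n + 1 - c) = c := by omega
      refine ⟨n + 1 - a, n + 1 - b, n + 1 - c, d, by omega, by omega, by omega, by omega,
        by omega, ?_, Or.inr ⟨by omega, by omega, ?_⟩⟩
      · simp only [e1, e2]
        omega
      · simp only [e3]
        exact hfc

theorem good_inverse (n : ℕ) (f h : ℕ → ℕ) (hf : Good n f)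
    (hh : ∀ i ∈ Set.Icc 1 n, h i ∈ Set.Icc 1 n ∧ f (h i) = i) : Good n h := by
  obtain ⟨h1, h2, h3⟩ := hf
  have hh1 : ∀ i, 1 ≤ i → i ≤ n → 1 ≤ h i ∧ h i ≤ n := fun i hi1 hi2 => (hh i ⟨hi1, hi2⟩).1
  have hh2 : ∀ i, 1 ≤ i → i ≤ n → f (h i) = i := fun i hi1 hi2 => (hh i ⟨hi1, hi2⟩).2
  have hh3 : ∀ i, 1 ≤ i → i ≤ n → h (f i) = i := by
    intro i hi1 hi2
    have a1 := h1 i hi1 hi2
    have a2 := hh1 (f i) a1.1 a1.2
    exact h2 _ _ a2.1 a2.2 hi1 hi2 (hh2 _ a1.1 a1.2)
  refine ⟨hh1, fun i j hi1 hi2 hj1 hj2 hij => ?_, fun hn => ?_⟩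
  · rw [← hh2 i hi1 hi2, hij, hh2 j hj1 hj2]
  · obtain ⟨a, b, c, d, ha1, ha2, hb1, hb2, hc, hd, hcd⟩ := h3 hn
    have fa := h1 a ha1 ha2
    have fb := h1 b hb1 hb2
    have ea := hh3 a ha1 ha2
    have eb := hh3 b hb1 hb2
    rcases hcd with ⟨hc0, hd0⟩ | ⟨hc1, hc2, hfc⟩
    · refine ⟨f a, f b, 0, 0, by omega, by omega, by omega, by omega, by omega, ?_,
        Or.inl ⟨rfl, rfl⟩⟩
      rw [ea, eb]; omega
    · have fc := h1 c hc1 hc2
      refine ⟨f a, f b, f c, c, by omega, by omega, by omega, by omega, by omega, ?_,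
        Or.inr ⟨by omega, by omega, hh3 c hc1 hc2⟩⟩
      rw [ea, eb]; omega

/-! ## The Lempel-Golomb permutations -/

section golomb

variable {F : Type} [Field F] [Fintype F] {a b : Fˣ}

theorem good_golomb (ha : ∀ x, x ∈ Subgroup.zpowers a)
    (hb : ∀ x, x ∈ Subgroup.zpowers b) (f : ℕ → ℕ)
    (hf : ∀ i ∈ Set.Icc 1 (Fintype.card F - 2), f i ∈ Set.Icc 1 (Fintype.card F - 2) ∧
      (a : F) ^ i + (b : F) ^ (f i) = 1) : Good (Fintype.card F - 2) f := by
  classical
  set q := Fintype.card F with hq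
  have hcu : Fintype.card Fˣ = q - 1 := Fintype.card_units F
  have hq2 : 2 ≤ q := Fintype.one_lt_card
  have hr : ∀ i, 1 ≤ i → i ≤ q - 2 → 1 ≤ f i ∧ f i ≤ q - 2 := fun i h1 h2 => (hf i ⟨h1, h2⟩).1
  have he : ∀ i, 1 ≤ i → i ≤ q - 2 → (a : F) ^ i + (b : F) ^ (f i) = 1 :=
    fun i h1 h2 => (hf i ⟨h1, h2⟩).2
  refine ⟨hr, fun i j hi1 hi2 hj1 hj2 hij => ?_, fun hn => ?_⟩
  · have e1 := he i hi1 hi2
    have e2 := he j hj1 hj2
    rw [hij] at e1
    have e3 : (a : F) ^ i = (a : F) ^ j := by linear_combination e1 - e2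
    have e4 : a ^ i = a ^ j := by ext; push_cast; exact e3
    have e5 := pow_inj ha e4
    rw [hcu] at e5
    rcases mod_cases (by omega) (by omega) e5 with h | h <;> omega
  · -- choose i in {1, 2} with 2 a^i ≠ 1
    by_cases hq3 : q = 3
    · have h1 := hr 1 (by omega) (by omega)
      refine ⟨1, 1, 0, 0, by omega, by omega, by omega, by omega, by omega, by omega,
        Or.inl ⟨rfl, rfl⟩⟩
    have hi : ∃ i, 1 ≤ i ∧ i ≤ q - 2 ∧ 2 * (a : F) ^ i ≠ 1 := by
      by_contra hcon
      push Not at hcon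
      have e1 := hcon 1 (by omega) (by omega)
      have e2 := hcon 2 (by omega) (by omega)
      have h20 : (2 : F) ≠ 0 := by
        intro h0
        rw [h0, zero_mul] at e1
        exact zero_ne_one e1
      have e3 : (a : F) ^ 1 = (a : F) ^ 2 := by
        apply mul_left_cancel₀ h20
        rw [e1, e2]
      have e4 : a ^ 1 = a ^ 2 := by ext; push_cast; exact e3
      have e5 := pow_inj ha e4
      rw [hcu] at e5
      rcases mod_cases (by omega) (by omega) e5 with h | h <;> omega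
    obtain ⟨i, hi1, hi2, hi3⟩ := hi
    set x : F := (a : F) ^ i with hx
    set y : F := (b : F) ^ (f i) with hy
    have hxy : x + y = 1 := he i hi1 hi2
    have hx0 : x ≠ 0 := pow_ne_zero _ a.ne_zero
    have hy0 : y ≠ 0 := pow_ne_zero _ b.ne_zero
    have h2x : 2 * x - 1 ≠ 0 := sub_ne_zero.2 hi3
    set x' : F := x / (2 * x - 1) with hx'
    have hx'0 : x' ≠ 0 := div_ne_zero hx0 h2x
    have hx'1 : x' ≠ 1 := by
      intro h
      rw [hx', div_eq_one_iff_eq h2x] at h
      apply hy0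
      linear_combination hxy + h
    have hux : (Units.mk0 x' hx'0) ≠ 1 := by
      intro h
      apply hx'1
      have := congrArg Units.val h
      simpa using this
    obtain ⟨j, hj1, hj2, hj3⟩ := exists_log ha hux
    rw [hcu] at hj2
    have hj3' : (a : F) ^ j = x' := by
      have := congrArg Units.val hj3
      simpa using this
    have hey := he j hj1 (by omega)
    rw [hj3'] at hey
    set y' : F := (b : F) ^ (f j) with hy'
    have hy'0 : y' ≠ 0 := pow_ne_zero _ b.ne_zero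
    have key : x * x' + y * y' = 1 := by
      have e1 : y = 1 - x := by linear_combination hxy
      have e2 : y' = 1 - x' := by linear_combination hey
      have e3 : x' * (2 * x - 1) = x := div_mul_cancel₀ x h2x
      rw [e1, e2]
      linear_combination e3
    have hprod : x * x' ≠ 1 := by
      intro h
      have : y * y' = 0 := by linear_combination key - h
      exact (mul_ne_zero hy0 hy'0) this
    have hpow : (a : F) ^ (i + j) = x * x' := by rw [pow_add, hj3']
    -- the index c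
    have hne : (i + j) % (q - 1) ≠ 0 := by
      intro h0
      apply hprod
      rw [← hpow]
      have : a ^ (i + j) = 1 := by
        have h5 : orderOf a = q - 1 := by
          rw [orderOf_eq_card_of_forall_mem_zpowers ha, Nat.card_eq_fintype_card, hcu]
        rw [← orderOf_dvd_iff_pow_eq_one, h5]
        exact Nat.dvd_of_mod_eq_zero h0
      have := congrArg Units.val this
      simpa using this
    have hcex : ∃ c, 1 ≤ c ∧ c ≤ q - 2 ∧ (i + j = c ∨ i + j = c + (q - 1)) := by
      by_cases hlt : i + j < q - 1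
      · exact ⟨i + j, by omega, by omega, Or.inl rfl⟩
      · have : i + j ≠ q - 1 := by
          intro h; rw [h, Nat.mod_self] at hne; exact hne rfl
        exact ⟨i + j - (q - 1), by omega, by omega, Or.inr (by omega)⟩
    obtain ⟨c, hc1, hc2, hc3⟩ := hcex
    have hac : (a : F) ^ c = x * x' := by
      rcases hc3 with h | h
      · rw [← h, hpow]
      · rw [← hpow, h, pow_add]
        have : a ^ (q - 1) = 1 := by rw [← hcu]; exact pow_card_eq_one
        have := congrArg Units.val this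
        push_cast at this
        rw [this, mul_one]
    have hec := he c hc1 hc2
    have hbc : (b : F) ^ (f c) = (b : F) ^ (f i + f j) := by
      rw [pow_add]
      linear_combination hec - key - hac
    have hbc' : b ^ (f i + f j) = b ^ (f c) := by ext; push_cast; exact hbc.symm
    have hm := pow_inj hb hbc'
    rw [hcu] at hm
    have r1 := hr i hi1 hi2
    have r2 := hr j hj1 (by omega)
    have r3 := hr c hc1 hc2
    have := mod_cases (by omega) (by omega) hm
    have hq1 : q - 2 + 1 = q - 1 := by omega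
    refine ⟨i, j, c, f c, hi1, hi2, hj1, by omega, ?_, ?_, Or.inr ⟨hc1, hc2, rfl⟩⟩
    · rw [hq1]; exact hc3
    · rw [hq1]; exact this

theorem good_golombCorner (hc : CharP F 2) (ha : ∀ x, x ∈ Subgroup.zpowers a)
    (hb : ∀ x, x ∈ Subgroup.zpowers b) (hab : (a : F) + b = 1) (f : ℕ → ℕ)
    (hf : ∀ i ∈ Set.Icc 1 (Fintype.card F - 3), f i ∈ Set.Icc 1 (Fintype.card F - 3) ∧
      (a : F) ^ (i + 1) + (b : F) ^ (f i + 1) = 1) : Good (Fintype.card F - 3) f := by
  classical
  obtain ⟨k, -, hk⟩ := FiniteField.card F 2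
  set q := Fintype.card F with hq
  have hcu : Fintype.card Fˣ = q - 1 := Fintype.card_units F
  have hq2 : 2 ≤ q := Fintype.one_lt_card
  obtain ⟨t, ht⟩ : ∃ t, q = 2 * t := by
    have hk0 : (k : ℕ) ≠ 0 := k.ne_zero
    obtain ⟨j, hj⟩ := Nat.exists_eq_succ_of_ne_zero hk0
    exact ⟨2 ^ j, by rw [hk, hj, pow_succ]; ring⟩
  have hr : ∀ i, 1 ≤ i → i ≤ q - 3 → 1 ≤ f i ∧ f i ≤ q - 3 := fun i h1 h2 => (hf i ⟨h1, h2⟩).1
  have he : ∀ i, 1 ≤ i → i ≤ q - 3 → (a : F) ^ (i + 1) + (b : F) ^ (f i + 1) = 1 :=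
    fun i h1 h2 => (hf i ⟨h1, h2⟩).2
  have hinj : ∀ i j, 1 ≤ i → i ≤ q - 3 → 1 ≤ j → j ≤ q - 3 → f i = f j → i = j := by
    intro i j hi1 hi2 hj1 hj2 hij
    have e1 := he i hi1 hi2
    have e2 := he j hj1 hj2
    rw [hij] at e1
    have e3 : (a : F) ^ (i + 1) = (a : F) ^ (j + 1) := by linear_combination e1 - e2
    have e4 : a ^ (i + 1) = a ^ (j + 1) := by ext; push_cast; exact e3
    have e5 := pow_inj ha e4
    rw [hcu] at e5
    rcases mod_cases (by omega) (by omega) e5 with h | h <;> omega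
  refine ⟨hr, hinj, fun hn => ?_⟩
  -- pigeonhole
  obtain ⟨i, hi1, hi2, hi3⟩ : ∃ i, t - 1 ≤ i ∧ i ≤ q - 3 ∧ t - 1 ≤ f i := by
    by_contra hcon
    push Not at hcon
    have hcard : (Finset.Icc 1 (t - 2)).card < (Finset.Icc (t - 1) (q - 3)).card := by
      rw [Nat.card_Icc, Nat.card_Icc]; omega
    obtain ⟨u, hu, v, hv, huv, hfuv⟩ := Finset.exists_ne_map_eq_of_card_lt_of_maps_to hcard
      (f := f) (by
        intro u hu
        simp only [Finset.coe_Icc, Set.mem_Icc] at hu ⊢
        have h1 := hcon u hu.1 hu.2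
        have h2 := hr u (by omega) hu.2
        omega)
    rw [Finset.mem_Icc] at hu hv
    exact huv (hinj u v (by omega) hu.2 (by omega) hv.2 hfuv)
  have r1 := hr i (by omega) hi2
  have e1 := he i (by omega) hi2
  have e2 : (a : F) ^ (2 * (i + 1)) + (b : F) ^ (2 * (f i + 1)) = 1 := by
    have := congrArg (fun z => z ^ 2) e1
    simp only [one_pow] at this
    rw [add_pow_char] at this
    rw [← this]
    ring
  have hpa : ∀ m, (a : F) ^ (m + (q - 1)) = (a : F) ^ m := by
    intro m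
    have : a ^ (q - 1) = 1 := by rw [← hcu]; exact pow_card_eq_one
    have := congrArg Units.val this
    push_cast at this
    rw [pow_add, this, mul_one]
  have hi4 : 2 * (i + 1) = (2 * i - (q - 2) + 1) + (q - 1) := by omega
  have e3 : (a : F) ^ (2 * i - (q - 2) + 1) + (b : F) ^ (2 * (f i + 1)) = 1 := by
    rw [hi4, hpa] at e2
    exact e2
  have hq3 : q - 3 + 1 = q - 2 := by omega
  by_cases hc0 : 2 * i - (q - 2) = 0
  · rw [hc0, zero_add, pow_one] at e3
    have e4 : (b : F) ^ (2 * (f i + 1)) = (b : F) ^ 1 := by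
      rw [pow_one]; linear_combination e3 - hab
    have e5 : b ^ (2 * (f i + 1)) = b ^ 1 := by ext; push_cast; exact e4
    have e6 := pow_inj hb e5
    rw [hcu] at e6
    have := mod_cases (by omega) (by omega) e6
    refine ⟨i, i, 0, 0, by omega, hi2, by omega, hi2, by omega, by omega, Or.inl ⟨rfl, rfl⟩⟩
  · have e4 := he (2 * i - (q - 2)) (by omega) (by omega)
    have e5 : (b : F) ^ (2 * (f i + 1)) = (b : F) ^ (f (2 * i - (q - 2)) + 1) := by
      linear_combination e3 - e4
    have e6 : b ^ (2 * (f i + 1)) = b ^ (f (2 * i - (q - 2)) + 1) := by ext; push_cast; exact e5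
    have e7 := pow_inj hb e6
    rw [hcu] at e7
    have r2 := hr (2 * i - (q - 2)) (by omega) (by omega)
    have := mod_cases (by omega) (by omega) e7
    refine ⟨i, i, 2 * i - (q - 2), f (2 * i - (q - 2)), by omega, hi2, by omega, hi2, by omega,
      by omega, Or.inr ⟨by omega, by omega, rfl⟩⟩

theorem good_golombTwoCorners (hc : CharP F 2) (ha : ∀ x, x ∈ Subgroup.zpowers a)
    (hb : ∀ x, x ∈ Subgroup.zpowers b) (hab : (a : F) + b = 1) (f : ℕ → ℕ)
    (hf : ∀ i ∈ Set.Icc 1 (Fintype.card F - 4), f i ∈ Set.Icc 1 (Fintype.card F - 4) ∧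
      (a : F) ^ (i + 2) + (b : F) ^ (f i + 2) = 1) : Good (Fintype.card F - 4) f := by
  classical
  obtain ⟨k, -, hk⟩ := FiniteField.card F 2
  set q := Fintype.card F with hq
  have hcu : Fintype.card Fˣ = q - 1 := Fintype.card_units F
  have hq2 : 2 ≤ q := Fintype.one_lt_card
  obtain ⟨j, hj⟩ : ∃ j, q = 2 * 2 ^ j := by
    have hk0 : (k : ℕ) ≠ 0 := k.ne_zero
    obtain ⟨j, hj⟩ := Nat.exists_eq_succ_of_ne_zero hk0
    exact ⟨j, by rw [hk, hj, pow_succ]; ring⟩
  set t := 2 ^ j with ht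
  have hr : ∀ i, 1 ≤ i → i ≤ q - 4 → 1 ≤ f i ∧ f i ≤ q - 4 := fun i h1 h2 => (hf i ⟨h1, h2⟩).1
  have he : ∀ i, 1 ≤ i → i ≤ q - 4 → (a : F) ^ (i + 2) + (b : F) ^ (f i + 2) = 1 :=
    fun i h1 h2 => (hf i ⟨h1, h2⟩).2
  have hinj : ∀ i j, 1 ≤ i → i ≤ q - 4 → 1 ≤ j → j ≤ q - 4 → f i = f j → i = j := by
    intro i j hi1 hi2 hj1 hj2 hij
    have e1 := he i hi1 hi2
    have e2 := he j hj1 hj2
    rw [hij] at e1
    have e3 : (a : F) ^ (i + 2) = (a : F) ^ (j + 2) := by linear_combination e1 - e2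
    have e4 : a ^ (i + 2) = a ^ (j + 2) := by ext; push_cast; exact e3
    have e5 := pow_inj ha e4
    rw [hcu] at e5
    rcases mod_cases (by omega) (by omega) e5 with h | h <;> omega
  refine ⟨hr, hinj, fun hn => ?_⟩
  have ht3 : 3 ≤ t := by omega
  -- the fixed dot
  have hfix : f (t - 2) = t - 2 := by
    have e1 : (a : F) ^ t + (b : F) ^ t = 1 := by
      rw [ht, ← add_pow_char_pow (p := 2), hab, one_pow]
    have e2 := he (t - 2) (by omega) (by omega)
    rw [show t - 2 + 2 = t by omega] at e2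
    have e3 : (b : F) ^ (f (t - 2) + 2) = (b : F) ^ t := by linear_combination e2 - e1
    have e4 : b ^ (f (t - 2) + 2) = b ^ t := by ext; push_cast; exact e3
    have e5 := pow_inj hb e4
    rw [hcu] at e5
    have r1 := hr (t - 2) (by omega) (by omega)
    rcases mod_cases (by omega) (by omega) e5 with h | h <;> omega
  -- pigeonhole
  obtain ⟨i, hi1, hi2, hi3⟩ : ∃ i, t - 1 ≤ i ∧ i ≤ q - 4 ∧ t - 1 ≤ f i := by
    by_contra hcon
    push Not at hcon
    have hcard : (Finset.Icc 1 (t - 2)).card < (Finset.Icc (t - 2) (q - 4)).card := by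
      rw [Nat.card_Icc, Nat.card_Icc]; omega
    obtain ⟨u, hu, v, hv, huv, hfuv⟩ := Finset.exists_ne_map_eq_of_card_lt_of_maps_to hcard
      (f := f) (by
        intro u hu
        simp only [Finset.coe_Icc, Set.mem_Icc] at hu ⊢
        by_cases h0 : u = t - 2
        · rw [h0, hfix]; omega
        · have h1 := hcon u (by omega) hu.2
          have h2 := hr u (by omega) hu.2
          omega)
    rw [Finset.mem_Icc] at hu hv
    exact huv (hinj u v (by omega) hu.2 (by omega) hv.2 hfuv)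
  have r1 := hr i (by omega) hi2
  have e1 := he i (by omega) hi2
  have e2 : (a : F) ^ (2 * (i + 2)) + (b : F) ^ (2 * (f i + 2)) = 1 := by
    have := congrArg (fun z => z ^ 2) e1
    simp only [one_pow] at this
    rw [add_pow_char] at this
    rw [← this]
    ring
  have hpa : ∀ m, (a : F) ^ (m + (q - 1)) = (a : F) ^ m := by
    intro m
    have : a ^ (q - 1) = 1 := by rw [← hcu]; exact pow_card_eq_one
    have := congrArg Units.val this
    push_cast at this
    rw [pow_add, this, mul_one]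
  have hi4 : 2 * (i + 2) = (2 * i - (q - 3) + 2) + (q - 1) := by omega
  have e3 : (a : F) ^ (2 * i - (q - 3) + 2) + (b : F) ^ (2 * (f i + 2)) = 1 := by
    rw [hi4, hpa] at e2
    exact e2
  have e4 := he (2 * i - (q - 3)) (by omega) (by omega)
  have e5 : (b : F) ^ (2 * (f i + 2)) = (b : F) ^ (f (2 * i - (q - 3)) + 2) := by
    linear_combination e3 - e4
  have e6 : b ^ (2 * (f i + 2)) = b ^ (f (2 * i - (q - 3)) + 2) := by ext; push_cast; exact e5
  have e7 := pow_inj hb e6
  rw [hcu] at e7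
  have r2 := hr (2 * i - (q - 3)) (by omega) (by omega)
  have hm : 2 * (f i + 2) = f (2 * i - (q - 3)) + 2 ∨
      2 * (f i + 2) = f (2 * i - (q - 3)) + 2 + (q - 1) := by
    by_cases hlt : 2 * (f i + 2) < 2 * (q - 1)
    · exact mod_cases hlt (by omega) e7
    · omega
  refine ⟨i, i, 2 * i - (q - 3), f (2 * i - (q - 3)), by omega, hi2, by omega, hi2, by omega,
    by omega, Or.inr ⟨by omega, by omega, rfl⟩⟩

end golomb

/-! ## The Welch permutations -/

theorem good_welch (p : ℕ) (hp : p.Prime) (g : (ZMod p)ˣ)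
    (hg : ∀ x, x ∈ Subgroup.zpowers g) (c : ℕ) (f : ℕ → ℕ)
    (hf : ∀ i ∈ Set.Icc 1 (p - 1), f i ∈ Set.Icc 1 (p - 1) ∧
      (f i : ZMod p) = (g : ZMod p) ^ (i + c)) : Good (p - 1) f := by
  classical
  have hfact : Fact p.Prime := ⟨hp⟩
  have hp2 := hp.two_le
  have hcu : Fintype.card (ZMod p)ˣ = p - 1 := by rw [Fintype.card_units, ZMod.card]
  have hr : ∀ i, 1 ≤ i → i ≤ p - 1 → 1 ≤ f i ∧ f i ≤ p - 1 := fun i h1 h2 => (hf i ⟨h1, h2⟩).1
  have he : ∀ i, 1 ≤ i → i ≤ p - 1 → (f i : ZMod p) = (g : ZMod p) ^ (i + c) :=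
    fun i h1 h2 => (hf i ⟨h1, h2⟩).2
  refine ⟨hr, fun i j hi1 hi2 hj1 hj2 hij => ?_, fun hn => ?_⟩
  · have e1 := he i hi1 hi2
    have e2 := he j hj1 hj2
    rw [hij, e2] at e1
    have e3 : g ^ (i + c) = g ^ (j + c) := by ext; push_cast; exact e1.symm
    have e4 := pow_inj hg e3
    rw [hcu] at e4
    have e5 : i ≡ j [MOD (p - 1)] := Nat.ModEq.add_right_cancel' c e4
    by_cases hip : i = p - 1
    · by_contra hne
      have h6 : j ≡ 0 [MOD (p - 1)] := by
        refine e5.symm.trans ?_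
        rw [hip]
        exact (Nat.modEq_zero_iff_dvd).2 dvd_rfl
      rcases mod_cases (by omega) (by omega) h6 with h | h <;> omega
    · rcases mod_cases (by omega) (by omega) e5.symm with h | h <;> omega
  · by_cases hp3 : p = 2
    · have h1 := hr 1 (by omega) (by omega)
      exact ⟨1, 1, 0, 0, by omega, by omega, by omega, by omega, by omega, by omega,
        Or.inl ⟨rfl, rfl⟩⟩
    by_contra hno
    have hginv : ∀ x, x ∈ Subgroup.zpowers (g⁻¹) := by
      intro x; rw [Subgroup.zpowers_inv]; exact hg x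
    have hgg : (g : ZMod p) * ((g⁻¹ : (ZMod p)ˣ) : ZMod p) = 1 := by
      rw [← Units.val_mul, mul_inv_cancel, Units.val_one]
    set G : ZMod p := ((g⁻¹ : (ZMod p)ˣ) : ZMod p) with hG
    -- the partner of a
    have hpart : ∀ a, ∃ b, 1 ≤ a → a ≤ p - 2 → 1 ≤ b ∧ b ≤ p - 2 ∧ G ^ a + G ^ b = 1 := by
      intro a
      by_cases hab : 1 ≤ a ∧ a ≤ p - 2
      · obtain ⟨ha1, ha2⟩ := hab
        have h1 : ((g⁻¹ : (ZMod p)ˣ) ^ a) ≠ 1 := by
          intro h
          have e3 : (g⁻¹) ^ a = (g⁻¹) ^ 0 := by rw [h, pow_zero]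
          have e4 := pow_inj hginv e3
          rw [hcu] at e4
          rcases mod_cases (by omega) (by omega) e4 with h | h <;> omega
        have h2 : 1 - G ^ a ≠ 0 := by
          intro h
          apply h1
          apply Units.ext
          rw [Units.val_pow_eq_pow_val, Units.val_one, ← hG]
          linear_combination -h
        have h3 : Units.mk0 (1 - G ^ a) h2 ≠ 1 := by
          intro h
          have h4 := congrArg Units.val h
          simp only [Units.val_mk0, Units.val_one] at h4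
          have h5 : G ^ a = 0 := by linear_combination -h4
          exact (pow_ne_zero a (Units.ne_zero g⁻¹)) h5
        obtain ⟨b, hb1, hb2, hb3⟩ := exists_log hginv h3
        rw [hcu] at hb2
        refine ⟨b, fun _ _ => ⟨hb1, by omega, ?_⟩⟩
        have h4 := congrArg Units.val hb3
        simp only [Units.val_mk0, Units.val_pow_eq_pow_val] at h4
        rw [← hG] at h4
        rw [h4]; ring
      · exact ⟨0, fun h1 h2 => absurd ⟨h1, h2⟩ hab⟩
    choose β hβ using hpart
    have hbig : ∀ a, 1 ≤ a → a ≤ p - 2 → p ≤ a + β a := by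
      intro a ha1 ha2
      obtain ⟨hb1, hb2, hb3⟩ := hβ a ha1 ha2
      by_contra hlt
      apply hno
      have e1 := he a ha1 (by omega)
      have e2 := he (β a) hb1 (by omega)
      have e3 := he (a + β a) (by omega) (by omega)
      have ga : (g : ZMod p) ^ a * G ^ a = 1 := by rw [← mul_pow, hgg, one_pow]
      have gb : (g : ZMod p) ^ (β a) * G ^ (β a) = 1 := by rw [← mul_pow, hgg, one_pow]
      have e4 : ((f a + f (β a) : ℕ) : ZMod p) = ((f (a + β a) : ℕ) : ZMod p) := by
        push_cast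
        rw [e1, e2, e3]
        have e5 : (g : ZMod p) ^ (a + β a + c) * (G ^ a + G ^ (β a)) =
            (g : ZMod p) ^ (a + c) + (g : ZMod p) ^ (β a + c) := by
          rw [pow_add, pow_add, pow_add _ a c, pow_add _ (β a) c]
          linear_combination (g : ZMod p) ^ (β a) * (g : ZMod p) ^ c * ga +
            (g : ZMod p) ^ a * (g : ZMod p) ^ c * gb
        rw [← e5, hb3, mul_one]
      have e5 := (ZMod.natCast_eq_natCast_iff _ _ _).1 e4
      have r1 := hr a ha1 (by omega)
      have r2 := hr (β a) hb1 (by omega)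
      have r3 := hr (a + β a) (by omega) (by omega)
      have e6 := mod_cases (by omega) (by omega) e5
      have hpp : p - 1 + 1 = p := by omega
      refine ⟨a, β a, a + β a, f (a + β a), ha1, by omega, hb1, by omega, Or.inl rfl, ?_,
        Or.inr ⟨by omega, by omega, rfl⟩⟩
      rw [hpp]; exact e6
    have hinj : Set.InjOn β (Finset.Icc 1 (p - 2) : Finset ℕ) := by
      intro u hu v hv huv
      rw [Finset.coe_Icc, Set.mem_Icc] at hu hv
      obtain ⟨-, -, h1⟩ := hβ u hu.1 hu.2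
      obtain ⟨-, -, h2⟩ := hβ v hv.1 hv.2
      rw [huv] at h1
      have h3 : G ^ u = G ^ v := by linear_combination h1 - h2
      have h4 : (g⁻¹) ^ u = (g⁻¹) ^ v := by
        apply Units.ext
        rw [Units.val_pow_eq_pow_val, Units.val_pow_eq_pow_val, ← hG]
        exact h3
      have h5 := pow_inj hginv h4
      rw [hcu] at h5
      rcases mod_cases (by omega) (by omega) h5 with h | h <;> omega
    have himg : (Finset.Icc 1 (p - 2)).image β = Finset.Icc 1 (p - 2) := by
      apply Finset.eq_of_subset_of_card_le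
      · intro b hb
        rw [Finset.mem_image] at hb
        obtain ⟨a, ha, rfl⟩ := hb
        rw [Finset.mem_Icc] at ha ⊢
        exact ⟨(hβ a ha.1 ha.2).1, (hβ a ha.1 ha.2).2.1⟩
      · rw [Finset.card_image_of_injOn hinj]
    have hsum : ∑ a ∈ Finset.Icc 1 (p - 2), β a = ∑ a ∈ Finset.Icc 1 (p - 2), a := by
      conv_rhs => rw [← himg]
      rw [Finset.sum_image hinj]
    have hgauss : ∀ n : ℕ, 2 * ∑ a ∈ Finset.Icc 1 n, a = n * (n + 1) := by
      intro n
      induction n with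
      | zero => simp
      | succ n ih => rw [Finset.sum_Icc_succ_top (by omega), mul_add, ih]; ring
    have hlow : ∑ a ∈ Finset.Icc 1 (p - 2), p ≤ ∑ a ∈ Finset.Icc 1 (p - 2), (a + β a) := by
      apply Finset.sum_le_sum
      intro a ha
      rw [Finset.mem_Icc] at ha
      exact hbig a ha.1 ha.2
    rw [Finset.sum_add_distrib, hsum, ← two_mul, hgauss, Finset.sum_const, Nat.card_Icc,
      smul_eq_mul] at hlow
    have h1 : p - 2 + 1 - 1 = p - 2 := by omega
    rw [h1] at hlow
    have h2 : p ≤ p - 2 + 1 := Nat.le_of_mul_le_mul_left hlow (by omega)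
    omega

theorem good_welchCorner (p : ℕ) (hp : p.Prime) (g : (ZMod p)ˣ)
    (hg : ∀ x, x ∈ Subgroup.zpowers g) (f : ℕ → ℕ)
    (hf : ∀ i ∈ Set.Icc 1 (p - 2), f i ∈ Set.Icc 1 (p - 2) ∧
      (f i : ZMod p) + 1 = (g : ZMod p) ^ i) : Good (p - 2) f := by
  classical
  have hfact : Fact p.Prime := ⟨hp⟩
  have hp2 := hp.two_le
  have hcu : Fintype.card (ZMod p)ˣ = p - 1 := by rw [Fintype.card_units, ZMod.card]
  have hr : ∀ i, 1 ≤ i → i ≤ p - 2 → 1 ≤ f i ∧ f i ≤ p - 2 := fun i h1 h2 => (hf i ⟨h1, h2⟩).1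
  have he : ∀ i, 1 ≤ i → i ≤ p - 2 → (f i : ZMod p) + 1 = (g : ZMod p) ^ i :=
    fun i h1 h2 => (hf i ⟨h1, h2⟩).2
  have hinj : ∀ i j, 1 ≤ i → i ≤ p - 2 → 1 ≤ j → j ≤ p - 2 → f i = f j → i = j := by
    intro i j hi1 hi2 hj1 hj2 hij
    have e1 := he i hi1 hi2
    have e2 := he j hj1 hj2
    rw [hij, e2] at e1
    have e3 : g ^ i = g ^ j := by ext; push_cast; exact e1.symm
    have e4 := pow_inj hg e3
    rw [hcu] at e4
    rcases mod_cases (by omega) (by omega) e4 with h | h <;> omega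
  refine ⟨hr, hinj, fun hn => ?_⟩
  obtain ⟨t, ht⟩ : ∃ t, p = 2 * t + 1 := by
    rcases hp.eq_two_or_odd with h | h
    · omega
    · exact ⟨p / 2, by omega⟩
  have ht1 : 1 ≤ t := by omega
  have htp : (2 : ZMod p) * t + 1 = 0 := by
    have := ZMod.natCast_self p
    rw [ht] at this
    push_cast at this
    rw [← ht] at this
    exact this
  -- values `2 t` and `t + 1`
  have hval : ∀ m : ℕ, 2 ≤ m → m ≤ p - 1 → ∃ i, 1 ≤ i ∧ i ≤ p - 2 ∧ f i + 1 = m := by
    intro m hm1 hm2
    have hm0 : (m : ZMod p) ≠ 0 := by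
      intro h
      rw [ZMod.natCast_eq_zero_iff] at h
      have := Nat.le_of_dvd (by omega) h
      omega
    have hm3 : Units.mk0 (m : ZMod p) hm0 ≠ 1 := by
      intro h
      have h1 := congrArg Units.val h
      simp only [Units.val_mk0, Units.val_one] at h1
      have h2 : ((m : ℕ) : ZMod p) = ((1 : ℕ) : ZMod p) := by rw [h1]; simp
      have h3 := (ZMod.natCast_eq_natCast_iff _ _ _).1 h2
      rcases mod_cases (by omega) (by omega) h3 with h | h <;> omega
    obtain ⟨i, hi1, hi2, hi3⟩ := exists_log hg hm3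
    rw [hcu] at hi2
    have hi4 := congrArg Units.val hi3
    simp only [Units.val_mk0, Units.val_pow_eq_pow_val] at hi4
    have e1 := he i hi1 (by omega)
    have e2 : ((f i + 1 : ℕ) : ZMod p) = ((m : ℕ) : ZMod p) := by push_cast; rw [e1, hi4]
    have e3 := (ZMod.natCast_eq_natCast_iff _ _ _).1 e2
    have r1 := hr i hi1 (by omega)
    refine ⟨i, hi1, by omega, ?_⟩
    rcases mod_cases (by omega) (by omega) e3 with h | h <;> omega
  obtain ⟨a, ha1, ha2, ha3⟩ := hval (2 * t) (by omega) (by omega)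
  obtain ⟨b, hb1, hb2, hb3⟩ := hval (t + 1) (by omega) (by omega)
  have ea := he a ha1 ha2
  have eb := he b hb1 hb2
  have ea' : (g : ZMod p) ^ a = 2 * t := by
    rw [← ea]
    have : ((f a + 1 : ℕ) : ZMod p) = ((2 * t : ℕ) : ZMod p) := by rw [ha3]
    push_cast at this
    exact this
  have eb' : (g : ZMod p) ^ b = t + 1 := by
    rw [← eb]
    have : ((f b + 1 : ℕ) : ZMod p) = ((t + 1 : ℕ) : ZMod p) := by rw [hb3]
    push_cast at this
    exact this
  have eab : (g : ZMod p) ^ (a + b) = t := by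
    rw [pow_add, ea', eb']
    linear_combination ((t : ZMod p)) * htp
  have hcard1 : (g : ZMod p) ^ (p - 1) = 1 := by
    have h1 : g ^ (p - 1) = 1 := by rw [← hcu]; exact pow_card_eq_one
    have h2 := congrArg Units.val h1
    rwa [Units.val_pow_eq_pow_val, Units.val_one] at h2
  have hnat : ∀ c, 1 ≤ c → c ≤ p - 2 → (g : ZMod p) ^ c = t → f c + 1 = t := by
    intro c hc1 hc2 hgc
    have e1 := he c hc1 hc2
    rw [hgc] at e1
    have e2 : ((f c + 1 : ℕ) : ZMod p) = ((t : ℕ) : ZMod p) := by push_cast; exact e1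
    have e3 := (ZMod.natCast_eq_natCast_iff _ _ _).1 e2
    have r1 := hr c hc1 hc2
    rcases mod_cases (by omega) (by omega) e3 with h | h <;> omega
  have hn1 : p - 2 + 1 = p - 1 := by omega
  rcases lt_trichotomy (a + b) (p - 1) with hlt | heq | hgt
  · have h1 := hnat (a + b) (by omega) (by omega) eab
    exact ⟨a, b, a + b, f (a + b), ha1, ha2, hb1, hb2, Or.inl rfl, Or.inr (by omega),
      Or.inr ⟨by omega, by omega, rfl⟩⟩
  · rw [heq, hcard1] at eab
    have h1 : ((1 : ℕ) : ZMod p) = ((t : ℕ) : ZMod p) := by rw [← eab]; simp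
    have h2 := (ZMod.natCast_eq_natCast_iff _ _ _).1 h1
    have h3 : t = 1 := by
      rcases mod_cases (by omega) (by omega) h2 with h | h <;> omega
    exact ⟨a, b, 0, 0, ha1, ha2, hb1, hb2, Or.inr (by omega), Or.inr (by omega),
      Or.inl ⟨rfl, rfl⟩⟩
  · have e1 : (g : ZMod p) ^ (a + b - (p - 1)) = t := by
      rw [← eab]
      conv_rhs => rw [show a + b = (a + b - (p - 1)) + (p - 1) by omega, pow_add, hcard1, mul_one]
    have h1 := hnat (a + b - (p - 1)) (by omega) (by omega) e1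
    exact ⟨a, b, a + b - (p - 1), f (a + b - (p - 1)), ha1, ha2, hb1, hb2, Or.inr (by omega),
      Or.inr (by omega), Or.inr ⟨by omega, by omega, rfl⟩⟩

theorem good_of_algebraic (n : ℕ) (f : ℕ → ℕ) (h : Algebraic n f) : Good n f := by
  induction h with
  | welch p hp g hg c f hf => exact good_welch p hp g hg c f hf
  | welchCorner p hp g hg f hf => exact good_welchCorner p hp g hg f hf
  | golomb F a b ha hb f hf => exact good_golomb ha hb f hf
  | golombCorner F hc a b ha hb hab f hf => exact good_golombCorner hc ha hb hab f hf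
  | golombTwoCorners F hc a b ha hb hab f hf => exact good_golombTwoCorners hc ha hb hab f hf
  | reflect n f _ ih => exact good_reflect n f ih
  | inverse n f h _ hh ih => exact good_inverse n f h ih hh

/-- No classical algebraic Costas permutation (of positive order) generates a pair of twin Costas
permutations. -/
theorem result (n : ℕ) (hn : 1 ≤ n) (f : ℕ → ℕ) (hf : Algebraic n f) : ¬ GeneratesTwins n f :=
  not_twins_of_triple n f ((good_of_algebraic n f hf).2.2 hn)

end Pool.Agent.Results.MP_b23570_co.NoAlgebraicTwins
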